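import Mathlib
import Pool.Agent.L5helper16.LG.Defs4
import Pool.Agent.Helper923.PNT

/-! Project LG (helper16), lemma C4: integers in windows without prime factors up to `ρ log x` (helper70, after
`L5helper48/LG/A2.lean`). -/

set_option autoImplicit false

namespace Pool.Agent.L5helper70.LG

open Filter Topology Finset
open Pool.Agent.L5helper16.LG

private lemma pc_eq (n : ℕ) : Nat.primeCounting n = #((range (n + 1)).filter Nat.Prime) := by
  rw [Nat.primeCounting, Nat.primeCounting', Nat.count_eq_card_filter_range]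

private lemma pc_win (h0 h : ℕ) (hle : h0 ≤ h) :
    #((Ioc h0 h).filter Nat.Prime) + Nat.primeCounting h0 = Nat.primeCounting h := by
  rw [pc_eq, pc_eq, ← card_union_of_disjoint, ← filter_union]
  · congr 2
    ext k
    simp only [mem_union, mem_Ioc, mem_range]
    omega
  · rw [disjoint_left]
    intro k h1 h2
    rw [mem_filter, mem_Ioc] at h1
    rw [mem_filter, mem_range] at h2
    omega

open Classical in
private lemma up (h0 h z : ℕ) (hle : h0 ≤ h) (hz : h < (z + 1) ^ 3) :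
    #((Ioc h0 h).filter fun j : ℕ => ∀ p : ℕ, p.Prime → p ≤ z → ¬ p ∣ j) +
      Nat.primeCounting h0 ≤ 1 + Nat.primeCounting h + Nat.primeCounting (h / (z + 1)) ^ 2 := by
  set P := (range (h / (z + 1) + 1)).filter Nat.Prime with hP
  have hsub : ((Ioc h0 h).filter fun j : ℕ => ∀ p : ℕ, p.Prime → p ≤ z → ¬ p ∣ j) ⊆
      ({1} ∪ (Ioc h0 h).filter Nat.Prime) ∪ (P ×ˢ P).image (fun q => q.1 * q.2) := by
    intro j hj
    rw [mem_filter, mem_Ioc] at hj
    obtain ⟨⟨h1, h2⟩, h3⟩ := hj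
    by_cases hj1 : j = 1
    · simp [hj1]
    by_cases hjp : j.Prime
    · rw [mem_union, mem_union]
      left; right
      rw [mem_filter, mem_Ioc]
      exact ⟨⟨h1, h2⟩, hjp⟩
    rw [mem_union]
    right
    set p := j.minFac with hp
    have hpp : p.Prime := Nat.minFac_prime hj1
    have hpj : p ∣ j := Nat.minFac_dvd j
    have hpz : z + 1 ≤ p := by
      by_contra hc
      exact h3 p hpp (by omega) hpj
    obtain ⟨m, hm⟩ := hpj
    have hm1 : m ≠ 1 := by
      rintro rfl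
      apply hjp
      rw [hm, mul_one]
      exact hpp
    have hm0 : m ≠ 0 := by
      rintro rfl
      omega
    set q := m.minFac with hq
    have hqp : q.Prime := Nat.minFac_prime hm1
    have hqm : q ∣ m := Nat.minFac_dvd m
    have hqz : z + 1 ≤ q := by
      by_contra hc
      exact h3 q hqp (by omega) (hqm.trans ⟨p, by rw [hm]; ring⟩)
    obtain ⟨n, hn⟩ := hqm
    have hn1 : n = 1 := by
      by_contra hc
      have hn0 : n ≠ 0 := by
        rintro rfl
        exact hm0 (by rw [hn]; ring)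
      have hr : n.minFac.Prime := Nat.minFac_prime hc
      have hrn : n.minFac ∣ n := Nat.minFac_dvd n
      have hrz : z + 1 ≤ n.minFac := by
        by_contra hc'
        refine h3 _ hr (by omega) (hrn.trans ⟨p * q, ?_⟩)
        rw [hm, hn]; ring
      have hrn' : n.minFac ≤ n := Nat.le_of_dvd (Nat.pos_of_ne_zero hn0) hrn
      have h4 : (z + 1) ^ 3 ≤ j := by
        calc (z + 1) ^ 3 = (z + 1) * ((z + 1) * (z + 1)) := by ring
          _ ≤ p * (q * n) := Nat.mul_le_mul hpz (Nat.mul_le_mul hqz (hrz.trans hrn'))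
          _ = j := by rw [hm]; conv_rhs => rw [hn]
      omega
    have hmp : m.Prime := by
      rw [hn, hn1, mul_one]
      exact hqp
    have hmz : z + 1 ≤ m := by
      rw [hn, hn1, mul_one]
      exact hqz
    rw [mem_image]
    refine ⟨(p, m), ?_, hm.symm⟩
    rw [mem_product]
    simp only [hP, mem_filter, mem_range]
    refine ⟨⟨?_, hpp⟩, ?_, hmp⟩
    · rw [Nat.lt_succ_iff, Nat.le_div_iff_mul_le (by omega)]
      calc p * (z + 1) ≤ p * m := Nat.mul_le_mul_left _ hmz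
        _ = j := hm.symm
        _ ≤ h := h2
    · rw [Nat.lt_succ_iff, Nat.le_div_iff_mul_le (by omega)]
      calc m * (z + 1) ≤ m * p := Nat.mul_le_mul_left _ hpz
        _ = j := by rw [hm]; ring
        _ ≤ h := h2
  have h1 : #((Ioc h0 h).filter fun j : ℕ => ∀ p : ℕ, p.Prime → p ≤ z → ¬ p ∣ j) ≤
      1 + #((Ioc h0 h).filter Nat.Prime) + Nat.primeCounting (h / (z + 1)) ^ 2 := by
    refine (card_le_card hsub).trans ((card_union_le _ _).trans ?_)
    refine add_le_add ((card_union_le _ _).trans ?_) (card_image_le.trans ?_)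
    · rw [card_singleton]
    · rw [card_product, pc_eq, sq]
  have h2 := pc_win h0 h hle
  omega

open Classical in
private lemma low (h0 h z : ℕ) (hle : h0 ≤ h) :
    Nat.primeCounting h ≤ #((Ioc h0 h).filter fun j : ℕ => ∀ p : ℕ, p.Prime → p ≤ z → ¬ p ∣ j) +
      Nat.primeCounting h0 + z := by
  have hsub : (Ioc h0 h).filter Nat.Prime ⊆
      ((Ioc h0 h).filter fun j : ℕ => ∀ p : ℕ, p.Prime → p ≤ z → ¬ p ∣ j) ∪ Icc 1 z := by
    intro j hj
    rw [mem_filter] at hj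
    rw [mem_union, mem_filter, mem_Icc]
    by_cases hjz : j ≤ z
    · exact Or.inr ⟨hj.2.one_lt.le, hjz⟩
    · refine Or.inl ⟨hj.1, fun p hp hpz hpj => ?_⟩
      have := (Nat.prime_dvd_prime_iff_eq hp hj.2).1 hpj
      omega
  have h1 := (card_le_card hsub).trans (card_union_le _ _)
  rw [Nat.card_Icc] at h1
  have h2 := pc_win h0 h hle
  omega

private lemma basics (c : ℝ) (hc : 0 < c) :
    Tendsto (fun t : ℝ => c * (t + Real.log 4) ^ 2 / t ^ 2) atTop (𝓝 c) ∧
    Tendsto (fun t : ℝ => c * (t + Real.log 4) ^ 2) atTop atTop := by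
  have hi : Tendsto (fun t : ℝ => Real.log 4 / t) atTop (𝓝 0) :=
    tendsto_const_nhds.div_atTop tendsto_id
  have hH1 : Tendsto (fun t : ℝ => c * (t + Real.log 4) ^ 2 / t ^ 2) atTop (𝓝 c) := by
    have h : Tendsto (fun t : ℝ => c * (1 + Real.log 4 / t) ^ 2) atTop (𝓝 (c * (1 + 0) ^ 2)) :=
      ((hi.const_add 1).pow 2).const_mul c
    simp only [add_zero, one_pow, mul_one] at h
    refine h.congr' ?_
    filter_upwards [eventually_gt_atTop 0] with t ht
    field_simp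
  refine ⟨hH1, ?_⟩
  have hsq : Tendsto (fun t : ℝ => t ^ 2) atTop atTop := tendsto_pow_atTop (by norm_num)
  refine (hH1.pos_mul_atTop hc hsq).congr' ?_
  filter_upwards [eventually_gt_atTop 0] with t ht
  field_simp

private lemma asyA (c : ℝ) (hc : 0 < c) :
    Tendsto (fun t : ℝ => (Nat.primeCounting ⌊c * (t + Real.log 4) ^ 2⌋₊ : ℝ) /
      (t ^ 2 / (2 * Real.log t))) atTop (𝓝 c) := by
  obtain ⟨hH1, hHT⟩ := basics c hc
  have hlt := Real.tendsto_log_atTop
  obtain ⟨H, hH⟩ : ∃ H : ℝ → ℝ, H = fun t => c * (t + Real.log 4) ^ 2 := ⟨_, rfl⟩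
  have hHt : ∀ t, c * (t + Real.log 4) ^ 2 = H t := fun t => by rw [hH]
  simp only [hHt] at hH1 hHT ⊢
  have hHT' : Tendsto H atTop atTop := hHT
  have hlH : Tendsto (fun t : ℝ => Real.log (H t) / Real.log t) atTop (𝓝 2) := by
    have h := (((Real.continuousAt_log hc.ne').tendsto.comp hH1).div_atTop hlt).add_const 2
    rw [zero_add] at h
    refine h.congr' ?_
    filter_upwards [eventually_gt_atTop 1, hHT.eventually_gt_atTop 0] with t ht hHt
    have hl : Real.log t ≠ 0 := (Real.log_pos ht).ne'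
    simp only [Function.comp]
    rw [Real.log_div hHt.ne' (by positivity), Real.log_pow]
    field_simp
    push_cast
    ring
  have hlH' := hlH.inv₀ (by norm_num)
  have hpH := Pool.Agent.Helper923.PNT.pi_tendsto.comp hHT'
  have key := ((hpH.mul hH1).mul_const 2).mul hlH'
  have e : 1 * c * 2 * 2⁻¹ = c := by ring
  rw [e] at key
  refine key.congr' ?_
  filter_upwards [eventually_gt_atTop 1, hHT.eventually_gt_atTop 1] with t ht hHt1
  have hl : Real.log t ≠ 0 := (Real.log_pos ht).ne'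
  have hl2 : Real.log (H t) ≠ 0 := (Real.log_pos hHt1).ne'
  have hH0 : H t ≠ 0 := by linarith
  have ht0 : t ≠ 0 := by linarith
  simp only [Function.comp]
  generalize H t = h at *
  field_simp

private lemma asyB (c ρ : ℝ) (hc : 0 < c) (hρ : 0 < ρ) :
    Tendsto (fun t : ℝ => (Nat.primeCounting ⌊c * (t + Real.log 4) ^ 2 / (ρ * t)⌋₊ : ℝ) ^ 2 /
      (t ^ 2 / (2 * Real.log t))) atTop (𝓝 0) := by
  obtain ⟨hH1, hHT⟩ := basics c hc
  have hlt := Real.tendsto_log_atTop
  obtain ⟨G, hG⟩ : ∃ G : ℝ → ℝ, G = fun t => c * (t + Real.log 4) ^ 2 / (ρ * t) := ⟨_, rfl⟩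
  have hGt : ∀ t, c * (t + Real.log 4) ^ 2 / (ρ * t) = G t := fun t => by rw [hG]
  simp only [hGt]
  have hG1 : Tendsto (fun t : ℝ => G t / t) atTop (𝓝 (c / ρ)) := by
    refine (hH1.div_const ρ).congr' ?_
    filter_upwards [eventually_gt_atTop 0] with t ht
    rw [← hGt]
    field_simp
  have hGT : Tendsto G atTop atTop := by
    refine (hG1.pos_mul_atTop (by positivity) tendsto_id).congr' ?_
    filter_upwards [eventually_gt_atTop 0] with t ht
    simp only [id]
    field_simp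
  have hlG : Tendsto (fun t : ℝ => Real.log (G t) / Real.log t) atTop (𝓝 1) := by
    have h := (((Real.continuousAt_log (show c / ρ ≠ 0 by positivity)).tendsto.comp hG1).div_atTop
      hlt).add_const 1
    rw [zero_add] at h
    refine h.congr' ?_
    filter_upwards [eventually_gt_atTop 1, hGT.eventually_gt_atTop 0] with t ht hGt
    have hl : Real.log t ≠ 0 := (Real.log_pos ht).ne'
    simp only [Function.comp]
    rw [Real.log_div hGt.ne' (by positivity)]
    field_simp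
    ring
  have hlG' := hlG.inv₀ (by norm_num)
  have hlGi : Tendsto (fun t : ℝ => (Real.log (G t))⁻¹) atTop (𝓝 0) :=
    tendsto_inv_atTop_zero.comp (hlt.comp hGT)
  have hpG := Pool.Agent.Helper923.PNT.pi_tendsto.comp hGT
  have key := (((hpG.pow 2).mul (hG1.pow 2)).mul_const 2).mul (hlG'.mul hlGi)
  have e : 1 ^ 2 * (c / ρ) ^ 2 * 2 * (1⁻¹ * 0) = (0 : ℝ) := by ring
  rw [e] at key
  refine key.congr' ?_
  filter_upwards [eventually_gt_atTop 1, hGT.eventually_gt_atTop 1] with t ht hGt1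
  have hl : Real.log t ≠ 0 := (Real.log_pos ht).ne'
  have hl3 : Real.log (G t) ≠ 0 := (Real.log_pos hGt1).ne'
  have hG0 : G t ≠ 0 := by linarith
  have ht0 : t ≠ 0 := by linarith
  simp only [Function.comp]
  generalize G t = g at *
  field_simp

private lemma asyC (ρ : ℝ) :
    Tendsto (fun t : ℝ => (1 + ρ * t) / (t ^ 2 / (2 * Real.log t))) atTop (𝓝 0) := by
  have h1 : Tendsto (fun t : ℝ => Real.log t / t) atTop (𝓝 0) := by
    have h := Real.tendsto_pow_log_div_mul_add_atTop 1 0 1 one_ne_zero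
    simpa using h
  have h2 : Tendsto (fun t : ℝ => Real.log t / t * t⁻¹) atTop (𝓝 0) := by
    simpa using h1.mul tendsto_inv_atTop_zero
  have key := (h2.const_mul 2).add (h1.const_mul (2 * ρ))
  rw [mul_zero, mul_zero, add_zero] at key
  refine key.congr' ?_
  filter_upwards [eventually_gt_atTop 1] with t ht
  have hl : Real.log t ≠ 0 := (Real.log_pos ht).ne'
  field_simp

private lemma asyD (c ρ : ℝ) (hc : 0 < c) (hρ : 0 < ρ) :
    ∀ᶠ t : ℝ in atTop, c * (t + Real.log 4) ^ 2 < (ρ * t) ^ 3 := by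
  obtain ⟨hH1, -⟩ := basics c hc
  have h3 : Tendsto (fun t : ℝ => ρ ^ 3 * t) atTop atTop :=
    tendsto_id.const_mul_atTop (by positivity)
  filter_upwards [hH1.eventually (gt_mem_nhds (show c < c + 1 by linarith)),
    h3.eventually_gt_atTop (c + 1), eventually_gt_atTop 0] with t h1 h2 ht
  have h4 : c * (t + Real.log 4) ^ 2 / t ^ 2 < ρ ^ 3 * t := h1.trans h2
  rw [div_lt_iff₀ (by positivity)] at h4
  calc c * (t + Real.log 4) ^ 2 < ρ ^ 3 * t * t ^ 2 := h4
    _ = (ρ * t) ^ 3 := by ring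

private lemma asyA0 (c : ℝ) (hc : 0 ≤ c) :
    Tendsto (fun t : ℝ => (Nat.primeCounting ⌊c * (t + Real.log 4) ^ 2⌋₊ : ℝ) /
      (t ^ 2 / (2 * Real.log t))) atTop (𝓝 c) := by
  rcases hc.eq_or_lt with h | h
  · subst h
    simp
  · exact asyA c h

open Classical in
theorem c4 : St_C4 := by
  intro α β ρ η hα hαβ hρ hη
  have hβ : 0 < β := hα.trans_lt hαβ
  have hlog : Tendsto (fun n : ℕ => Real.log (n : ℝ)) atTop atTop :=
    Real.tendsto_log_atTop.comp tendsto_natCast_atTop_atTop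
  filter_upwards [hlog.eventually ((asyA0 α hα).eventually (Icc_mem_nhds
      (show α - η / 4 < α by linarith) (show α < α + η / 4 by linarith))),
    hlog.eventually ((asyA β hβ).eventually (Icc_mem_nhds
      (show β - η / 4 < β by linarith) (show β < β + η / 4 by linarith))),
    hlog.eventually ((asyB β ρ hβ hρ).eventually (gt_mem_nhds (show (0 : ℝ) < η / 8 by linarith))),
    hlog.eventually ((asyC ρ).eventually (gt_mem_nhds (show (0 : ℝ) < η / 8 by linarith))),
    hlog.eventually (asyD β ρ hβ hρ), hlog.eventually (eventually_gt_atTop 1),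
    eventually_ge_atTop 1] with x h1 h2 h3 h4 h5 h6 hx
  have hx0 : (0 : ℝ) < x := by exact_mod_cast hx
  have e1 : Real.log (4 * x) = Real.log x + Real.log 4 := by
    rw [Real.log_mul (by norm_num) hx0.ne']
    ring
  unfold ct
  rw [e1]
  obtain ⟨t, ht⟩ : ∃ t, t = Real.log (x : ℝ) := ⟨_, rfl⟩
  rw [← ht] at h1 h2 h3 h4 h5 h6 ⊢
  have ht0 : 0 < t := by linarith
  have hlt : 0 < Real.log t := Real.log_pos h6
  have hz : ρ * t < (⌊ρ * t⌋₊ : ℝ) + 1 := Nat.lt_floor_add_one _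
  have hz' : (⌊ρ * t⌋₊ : ℝ) ≤ ρ * t := Nat.floor_le (by positivity)
  have hHn : 0 ≤ β * (t + Real.log 4) ^ 2 := by positivity
  have hle : ⌊α * (t + Real.log 4) ^ 2⌋₊ ≤ ⌊β * (t + Real.log 4) ^ 2⌋₊ :=
    Nat.floor_mono (mul_le_mul_of_nonneg_right hαβ.le (by positivity))
  have hup := up ⌊α * (t + Real.log 4) ^ 2⌋₊ ⌊β * (t + Real.log 4) ^ 2⌋₊ ⌊ρ * t⌋₊ hle (by
    have h6 : ((⌊β * (t + Real.log 4) ^ 2⌋₊ : ℕ) : ℝ) < (((⌊ρ * t⌋₊ + 1) ^ 3 : ℕ) : ℝ) := by
      push_cast
      calc ((⌊β * (t + Real.log 4) ^ 2⌋₊ : ℕ) : ℝ) ≤ β * (t + Real.log 4) ^ 2 := Nat.floor_le hHn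
        _ < (ρ * t) ^ 3 := h5
        _ ≤ _ := pow_le_pow_left₀ (by positivity) hz.le 3
    exact_mod_cast h6)
  have hlow := low ⌊α * (t + Real.log 4) ^ 2⌋₊ ⌊β * (t + Real.log 4) ^ 2⌋₊ ⌊ρ * t⌋₊ hle
  have hG : ⌊β * (t + Real.log 4) ^ 2⌋₊ / (⌊ρ * t⌋₊ + 1) ≤
      ⌊β * (t + Real.log 4) ^ 2 / (ρ * t)⌋₊ := by
    apply Nat.le_floor
    refine Nat.cast_div_le.trans ?_
    push_cast
    exact div_le_div₀ hHn (Nat.floor_le hHn) (by positivity) hz.le
  have hmono := Nat.pow_le_pow_left (Nat.monotone_primeCounting hG) 2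
  obtain ⟨F, hF⟩ : ∃ F, F = t ^ 2 / (2 * Real.log t) := ⟨_, rfl⟩
  have hF0 : 0 < F := by rw [hF]; positivity
  have e2 : (β - α) * t ^ 2 / (2 * Real.log t) = (β - α) * F := by rw [hF]; ring
  rw [← hF] at h1 h2 h3 h4 ⊢
  rw [e2]
  obtain ⟨N, hN⟩ : ∃ N, N = #((Ioc ⌊α * (t + Real.log 4) ^ 2⌋₊ ⌊β * (t + Real.log 4) ^ 2⌋₊).filter
    fun j : ℕ => ∀ p : ℕ, p.Prime → p ≤ ⌊ρ * t⌋₊ → ¬ p ∣ j) := ⟨_, rfl⟩
  rw [← hN] at hup hlow ⊢
  obtain ⟨g1, g2⟩ := h1
  obtain ⟨g3, g4⟩ := h2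
  rw [le_div_iff₀ hF0] at g1 g3
  rw [div_le_iff₀ hF0] at g2 g4
  rw [div_lt_iff₀ hF0] at h3 h4
  have hup' : (N : ℝ) + (Nat.primeCounting ⌊α * (t + Real.log 4) ^ 2⌋₊ : ℝ) ≤
      1 + (Nat.primeCounting ⌊β * (t + Real.log 4) ^ 2⌋₊ : ℝ) +
        (Nat.primeCounting ⌊β * (t + Real.log 4) ^ 2 / (ρ * t)⌋₊ : ℝ) ^ 2 := by
    exact_mod_cast hup.trans (Nat.add_le_add_left hmono _)
  have hlow' : (Nat.primeCounting ⌊β * (t + Real.log 4) ^ 2⌋₊ : ℝ) ≤
      (N : ℝ) + (Nat.primeCounting ⌊α * (t + Real.log 4) ^ 2⌋₊ : ℝ) + (⌊ρ * t⌋₊ : ℝ) := by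
    exact_mod_cast hlow
  have hρt : 0 ≤ ρ * t := by positivity
  rw [abs_le]
  constructor <;> nlinarith

end Pool.Agent.L5helper70.LG
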